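import Pool.Agent.TH612.CF.Mn

set_option autoImplicit false

/-!
The recipe for the shifted moments of order `2k` of the Riemann zeta function, with all the swap
terms and a power saving, on average over a line of shifts at the scale `1 / log T`.
-/

namespace Pool.Agent.Results.MP_fa2474_nt.AveragedRecipe

open Complex MeasureTheory Filter Asymptotics
open scoped ContDiff Topology

noncomputable section

variable {k : ℕ}

/-- The divisor function `τ_l(n)`: the sum over `d_1 d_2 ⋯ d_k = n` of `∏ j, d_j ^ l_j`. -/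
def tau (l : Fin k → ℂ) (n : ℕ) : ℂ :=
  ∑ d ∈ Nat.finMulAntidiag k n, ∏ j, (d j : ℂ) ^ (l j)

/-- The Euler factor of `F(a, b)` at the prime `p`. -/
def localFactor (a b : Fin k → ℝ) (p : ℕ) : ℂ :=
  (∏ j, ∏ l, (1 - (p : ℂ) ^ (-(1 + I * a j - I * b l)))) *
    ∑' m : ℕ, tau (fun j => I * b j) (p ^ m) * tau (fun j => -(I * a j)) (p ^ m) *
      (p : ℂ) ^ (-(m : ℂ))

/-- The arithmetic factor `F(a, b)`, an Euler product. -/
def arithF (a b : Fin k → ℝ) : ℂ := ∏' p : Nat.Primes, localFactor a b p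

/-- The diagonal term `F(a, b) ∏ ζ(1 + i a_j - i b_l)`. -/
def diag (a b : Fin k → ℝ) : ℂ :=
  arithF a b * ∏ j, ∏ l, riemannZeta (1 + I * a j - I * b l)

/-- The factor `χ` of the functional equation `ζ(s) = χ(s) ζ(1 - s)`. -/
def chi (s : ℂ) : ℂ := (Real.pi : ℂ) ^ (s - 1 / 2) * Gamma ((1 - s) / 2) / Gamma (s / 2)

/-- `Z_γ(t) = ∏ ζ(1/2 + i(t + α_j)) ζ(1/2 - i(t + β_j))`, where `γ = (α, β)` is indexed by
`Fin k ⊕ Fin k`. -/
def Z (γ : Fin k ⊕ Fin k → ℝ) (t : ℝ) : ℂ :=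
  ∏ j : Fin k, riemannZeta (1 / 2 + I * (t + γ (Sum.inl j))) *
    riemannZeta (1 / 2 - I * (t + γ (Sum.inr j)))

/-- The product of the factors `χ` for the swapped shifts. -/
def G (γ : Fin k ⊕ Fin k → ℝ) (t : ℝ) (π : Equiv.Perm (Fin k ⊕ Fin k)) : ℂ :=
  (∏ j : Fin k, if (π (Sum.inl j)).isRight then chi (1 / 2 - I * t - I * γ (π (Sum.inl j))) else 1) *
  ∏ j : Fin k, if (π (Sum.inr j)).isLeft then chi (1 / 2 + I * t + I * γ (π (Sum.inr j))) else 1

/-- The recipe `Q(t; γ)`, the sum of all the `(2k)! / (k!) ^ 2` swap terms: the summand depends only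
on the class of `π` in `S_{2k} / (S_k × S_k)`, so the sum over the classes is the sum over all `π`,
divided by `(k!) ^ 2`. -/
def Q (γ : Fin k ⊕ Fin k → ℝ) (t : ℝ) : ℂ :=
  ((Nat.factorial k : ℂ) ^ 2)⁻¹ * ∑ π : Equiv.Perm (Fin k ⊕ Fin k),
    G γ t π * diag (fun j => γ (π (Sum.inl j))) (fun j => γ (π (Sum.inr j)))

/-- The line of shifts `γ(y) = g + y v`. -/
def line (g v : Fin k ⊕ Fin k → ℝ) (y : ℝ) : Fin k ⊕ Fin k → ℝ := fun i => g i + y * v i

/-- The Fourier transform `φ(x) = ∫ ψ(ξ) e^{iξx} dξ`. -/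
def phi (ψ : ℝ → ℂ) (x : ℝ) : ℂ := ∫ ξ : ℝ, ψ ξ * exp (I * ξ * x)

/-- The number of indices `j` with `v (inr j) = 1`. -/
def swaps (v : Fin k ⊕ Fin k → ℝ) : ℕ :=
  (Finset.univ.filter fun j : Fin k => v (Sum.inr j) = 1).card

section aux

open Pool.Agent.TH612.CF Pool.Agent.W182.KO

lemma diag_eq (a b : Fin k → ℝ) :
    diag a b = zab (fun j => (a j : ℂ)) (fun j => (b j : ℂ)) := by
  unfold diag zab arithF FH
  congr 1
  · refine tprod_congr fun p => ?_
    unfold localFactor lh lt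
    congr 1
    refine tsum_congr fun m => ?_
    rw [Complex.cpow_neg, Complex.cpow_natCast]
    rfl

lemma Q_eq (γ : Fin k ⊕ Fin k → ℝ) (t : ℝ) :
    Q γ t = ((Nat.factorial k : ℂ) ^ 2)⁻¹ * Qs t (fun i => (γ i : ℂ)) := by
  unfold Q Qs Rt
  congr 1
  refine Finset.sum_congr rfl fun π _ => ?_
  rw [diag_eq]
  rfl

lemma phi_eq (ψ : ℝ → ℂ) (L y : ℝ) : phi ψ (y * L) = P ψ (L * y * I) := by
  unfold phi P
  refine integral_congr_ae (Eventually.of_forall fun ξ => ?_)
  simp only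
  congr 2
  push_cast
  ring

lemma EE_eq' (ψ : ℝ → ℂ) (g v : Fin k ⊕ Fin k → ℝ) (T y : ℝ) :
    phi ψ (y * Real.log T) * (∫ t in (0:ℝ)..T, (Z (line g v y) t - Q (line g v y) t)) =
      EE ψ g v T y := by
  unfold EE
  rw [phi_eq]
  congr 1
  refine intervalIntegral.integral_congr fun t _ => ?_
  rw [Q_eq]
  rfl

lemma swaps_eq (v : Fin k ⊕ Fin k → ℝ) : mv v = swaps v := by
  classical
  unfold mv swaps
  symm
  refine Finset.card_bij (fun j _ => Sum.inr j) ?_ ?_ ?_
  · intro j hj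
    simpa using hj
  · intro a _ b _ h
    exact Sum.inr_injective h
  · rintro (i | i) hi
    · simp at hi
    · exact ⟨i, by simpa using hi, rfl⟩

lemma swaps_neg {v : Fin k ⊕ Fin k → ℝ} (hv : ∀ i, v i = 1 ∨ v i = -1) :
    (swaps (-v) : ℝ) = k - swaps v := by
  classical
  have h1 : swaps (-v) = (Finset.univ.filter fun j : Fin k => ¬ v (Sum.inr j) = 1).card := by
    unfold swaps
    congr 1
    refine Finset.filter_congr fun j _ => ?_
    rw [Pi.neg_apply]
    rcases hv (Sum.inr j) with h | h <;> rw [h] <;> norm_num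
  have h2 : swaps v + swaps (-v) = k := by
    rw [h1]
    unfold swaps
    rw [Finset.card_filter_add_card_filter_not]
    simp
  have h3 : (swaps v : ℝ) + swaps (-v) = k := by exact_mod_cast h2
  linarith

lemma P_neg (ψ : ℝ → ℂ) (z : ℂ) : P (fun ξ => ψ (-ξ)) (-z) = P ψ z := by
  unfold P
  rw [← integral_neg_eq_self]
  refine integral_congr_ae (Eventually.of_forall fun ξ => ?_)
  simp only [neg_neg]
  congr 2
  push_cast
  ring

lemma gl_neg (g v : Fin k ⊕ Fin k → ℝ) (y : ℝ) : gl g (-v) (-y) = gl g v y := by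
  unfold gl
  funext i
  simp

lemma EE_neg (ψ : ℝ → ℂ) (g v : Fin k ⊕ Fin k → ℝ) (T y : ℝ) :
    EE (fun ξ => ψ (-ξ)) g (-v) T (-y) = EE ψ g v T y := by
  unfold EE
  rw [gl_neg]
  congr 1
  rw [← P_neg ψ]
  congr 1
  push_cast
  ring

lemma exists_perm {v : Fin k ⊕ Fin k → ℝ} (hv : ∀ i, v i = 1 ∨ v i = -1) (hs : ∑ i, v i = 0) :
    ∃ π : Equiv.Perm (Fin k ⊕ Fin k), Good v π := by
  classical
  have hA : (Finset.univ.filter fun i => v i = 1).card = k := by
    have e1 : ∀ i, v i = 2 * (if v i = 1 then 1 else 0) - 1 := by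
      intro i
      rcases hv i with h | h <;> rw [h] <;> norm_num
    rw [Finset.sum_congr rfl fun i _ => e1 i, Finset.sum_sub_distrib, ← Finset.mul_sum,
      Finset.sum_boole] at hs
    simp only [Finset.sum_const, Finset.card_univ, Fintype.card_sum, Fintype.card_fin, nsmul_eq_mul,
      mul_one] at hs
    have : ((Finset.univ.filter fun i => v i = 1).card : ℝ) = k := by
      push_cast at hs
      linarith
    exact_mod_cast this
  obtain ⟨π, hπ⟩ := exists_good hA
  refine ⟨π, fun j => ⟨?_, ?_⟩⟩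
  · have := (hπ j).1
    simpa using this
  · have := (hπ j).2
    rcases hv (π (Sum.inr j)) with h | h
    · exact absurd (by simpa using h) this
    · exact h

/-- the part of `ψ` on the left of `c` -/
lemma cut_left {ψ : ℝ → ℂ} (hψ : ContDiff ℝ ∞ ψ) (hc : HasCompactSupport ψ) {a b : ℝ} (hab : a < b)
    (h0 : ∀ ξ, a < ξ → ξ < b → ψ ξ = 0) : ∃ ψ1 ψ2 : ℝ → ℂ, TF a ψ1 ∧ TF (-b) (fun ξ => ψ2 (-ξ)) ∧
      ∀ ξ, ψ ξ = ψ1 ξ + ψ2 ξ := by
  obtain ⟨c, hac, hcb⟩ := exists_between hab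
  set ψ1 : ℝ → ℂ := fun ξ => if ξ < c then ψ ξ else 0 with h1
  set ψ2 : ℝ → ℂ := fun ξ => if ξ < c then 0 else ψ ξ with h2
  have s1 : ContDiff ℝ ∞ ψ1 := by
    rw [contDiff_iff_contDiffAt]
    intro x
    rcases lt_or_ge x c with hx | hx
    · refine (hψ.contDiffAt (x := x)).congr_of_eventuallyEq ?_
      filter_upwards [Iio_mem_nhds hx] with y hy
      simp only [h1]
      exact if_pos hy
    · refine (contDiffAt_const (c := (0:ℂ))).congr_of_eventuallyEq ?_
      filter_upwards [Ioi_mem_nhds (hac.trans_le hx)] with y hy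
      simp only [h1]
      split_ifs with h
      · exact h0 y hy (h.trans hcb)
      · rfl
  have s2 : ContDiff ℝ ∞ ψ2 := by
    have : ψ2 = fun ξ => ψ ξ - ψ1 ξ := by
      funext ξ
      simp only [h1, h2]
      split_ifs <;> simp
    rw [this]
    exact hψ.sub s1
  have c1 : HasCompactSupport ψ1 := by
    refine hc.mono fun x hx => ?_
    simp only [h1, Function.mem_support, ne_eq, ite_eq_right_iff, Classical.not_imp] at hx
    exact hx.2
  have c2 : HasCompactSupport ψ2 := by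
    refine hc.mono fun x hx => ?_
    simp only [h2, Function.mem_support, ne_eq, ite_eq_left_iff, Classical.not_imp] at hx
    exact hx.2
  refine ⟨ψ1, ψ2, ⟨s1, c1, ?_⟩, ⟨s2.comp contDiff_neg, c2.comp_homeomorph (Homeomorph.neg ℝ), ?_⟩, ?_⟩
  · intro ξ hξ
    simp only [h1]
    split_ifs with h
    · exact h0 ξ hξ (h.trans hcb)
    · rfl
  · intro ξ hξ
    simp only [h2]
    split_ifs with h
    · rfl
    · push Not at h
      exact h0 (-ξ) (hac.trans_le h) (by linarith)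
  · intro ξ
    simp only [h1, h2]
    split_ifs <;> simp

end aux

open Pool.Agent.TH612.CF Pool.Agent.W182.KO in
/-- **The recipe with all its swap terms, on average over a line of shifts.** Let `k ≥ 2`, let
`v ∈ {1, -1} ^ {2k}` have sum `0`, let `m` be the number of `j` with `v (inr j) = 1`, let `g` be
injective on `{v = 1}` and on `{v = -1}`, and let `0 ≤ η < 2`. If the smooth compactly supported `ψ`
vanishes on the interval `(η - 2m, 2(k - m) - η)`, then for every `ε > 0`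
`∫ φ(y log T) ∫_0^T (Z_{g + yv}(t) - Q(t; g + yv)) dt dy = O(T ^ (1/2 + η/4 + ε))`. -/
theorem result (k : ℕ) (hk : 2 ≤ k) (g v : Fin k ⊕ Fin k → ℝ) (hv : ∀ i, v i = 1 ∨ v i = -1)
    (hs : ∑ i, v i = 0) (hg : ∀ p q, v p = v q → g p = g q → p = q)
    (η : ℝ) (hη0 : 0 ≤ η) (hη2 : η < 2) (ψ : ℝ → ℂ) (hψ : ContDiff ℝ ∞ ψ)
    (hc : HasCompactSupport ψ)
    (h0 : ∀ ξ : ℝ, η - 2 * swaps v < ξ → ξ < 2 * (k - swaps v) - η → ψ ξ = 0) :
    (∀ T : ℝ, Real.exp 1 ≤ T → Integrable fun y : ℝ => phi ψ (y * Real.log T) *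
      ∫ t in (0:ℝ)..T, (Z (line g v y) t - Q (line g v y) t)) ∧
    ∀ ε : ℝ, 0 < ε → (fun T : ℝ => ∫ y : ℝ, phi ψ (y * Real.log T) *
      ∫ t in (0:ℝ)..T, (Z (line g v y) t - Q (line g v y) t)) =O[atTop]
        fun T : ℝ => T ^ (1 / 2 + η / 4 + ε) := by
  classical
  have hk' : (2:ℝ) ≤ k := by exact_mod_cast hk
  obtain ⟨π0, hπ0⟩ := exists_perm hv hs
  have hv' : ∀ i, (-v) i = 1 ∨ (-v) i = -1 := by
    intro i
    rw [Pi.neg_apply]
    rcases hv i with h | h <;> rw [h] <;> norm_num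
  have hs' : ∑ i, (-v) i = 0 := by
    simp only [Pi.neg_apply, Finset.sum_neg_distrib, hs, neg_zero]
  obtain ⟨π1, hπ1⟩ := exists_perm hv' hs'
  have hi : CI g v := hg
  have hi' : CI g (-v) := by
    intro p q h
    refine hg p q ?_
    simpa using h
  obtain ⟨ψ1, ψ2, t1, t2, hsum⟩ := cut_left hψ hc (a := η - 2 * swaps v)
    (b := 2 * (k - swaps v) - η) (by linarith) h0
  have t1' : TF (η - 2 * mv v) ψ1 := by rw [swaps_eq]; exact t1
  have t2' : TF (η - 2 * mv (-v)) (fun ξ => ψ2 (-ξ)) := by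
    rw [swaps_eq, swaps_neg hv]
    convert t2 using 1
    ring
  have hP : ∀ z : ℂ, P ψ z = P ψ1 z + P (fun ξ => ψ2 (-ξ)) (-z) := by
    intro z
    rw [P_neg]
    unfold P
    have i1 := t1.int_exp z
    have i2 : Integrable (fun ξ : ℝ => ψ2 ξ * exp (ξ * z)) := by
      have := (t2.int_exp (-z)).comp_neg
      refine this.congr (Eventually.of_forall fun ξ => ?_)
      simp only [neg_neg]
      congr 2
      push_cast
      ring
    rw [← integral_add i1 i2]
    refine integral_congr_ae (Eventually.of_forall fun ξ => ?_)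
    simp only
    rw [hsum ξ]
    ring
  have hE : ∀ T y : ℝ, EE ψ g v T y = EE ψ1 g v T y + EE (fun ξ => ψ2 (-ξ)) g (-v) T (-y) := by
    intro T y
    unfold EE
    rw [hP, gl_neg]
    have : -((Real.log T : ℂ) * (y : ℂ) * I) = (Real.log T : ℂ) * ((-y : ℝ) : ℂ) * I := by
      push_cast; ring
    rw [this]
    ring
  simp only [EE_eq']
  have int1 : ∀ T : ℝ, Real.exp 1 ≤ T → Integrable (EE ψ1 g v T) := fun T hT =>
    EE_int hπ0 hi t1' hT
  have int2 : ∀ T : ℝ, Real.exp 1 ≤ T → Integrable fun y => EE (fun ξ => ψ2 (-ξ)) g (-v) T (-y) :=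
    fun T hT => (EE_int hπ1 hi' t2' hT).comp_neg
  constructor
  · intro T hT
    refine ((int1 T hT).add (int2 T hT)).congr (Eventually.of_forall fun y => ?_)
    exact (hE T y).symm
  · intro ε hε
    have o1 := main_O hπ0 hi hη0 hη2 t1' hε
    have o2 := main_O hπ1 hi' hη0 hη2 t2' hε
    refine (o1.add o2).congr' ?_ EventuallyEq.rfl
    filter_upwards [eventually_ge_atTop (Real.exp 1)] with T hT
    have e2 : ∫ y, EE (fun ξ => ψ2 (-ξ)) g (-v) T y = ∫ y, EE (fun ξ => ψ2 (-ξ)) g (-v) T (-y) :=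
      (integral_neg_eq_self _ _).symm
    rw [e2, ← integral_add (int1 T hT) (int2 T hT)]
    refine integral_congr_ae (Eventually.of_forall fun y => ?_)
    exact (hE T y).symm

end

end Pool.Agent.Results.MP_fa2474_nt.AveragedRecipe
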