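import Pool.Agent.X111.FZ.Sub

set_option autoImplicit false

/-!
MP_fa2474_nt. Growth of the moments of maxima over long families of shifts, next to the critical line: a transition at `k = 1`.
Let `δ(T) → 0`, `δ(T) log T → ∞`. For real `0 < k ≤ 2` and every `H ≥ 0`,
`(2δ)^(k²) (1/T) ∫_0^T (max_{|a| ≤ H} |ζ(1/2 + δ + i (t + a δ))|)^(2k) dt → a(k) Λ(k, H)`, with `a(k) > 0` and
`Λ(k, H) = E max_{|a| ≤ H} |f(i a)|^(2k)` for an explicit random function `f`. For `0 < k ≤ 1` the constant grows like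
`H^(2k - k²)`: `log Λ(k, H) / log H → 2k - k²`, and `Λ(k, H) ≤ C_k (1 + H)^(2k - k²)`. For `k > 1` it grows linearly:
`Λ(k, H) / H → c_k > 0`. The limit of `Λ(k, H) / H` exists for every `k > 0`; it is `0` for `k < 1` and positive for `k > 1`.
-/

open Filter Topology MeasureTheory

namespace Pool.Agent.Results.MP_fa2474_nt.FreezingOfMaxima

/-- The generalised divisor function at a prime power: `d_k(p^m) = Γ(k + m) / (Γ(k) m!)`. -/
noncomputable def dk (k : ℝ) (m : ℕ) : ℝ := Real.Gamma (k + m) / (Real.Gamma k * (m.factorial : ℝ))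

/-- The arithmetic factor `a(k) = ∏_p (1 - 1/p)^(k²) ∑_m d_k(p^m)² p^(-m)`. -/
noncomputable def ak (k : ℝ) : ℝ :=
  ∏' p : Nat.Primes, ((1 - 1 / (p : ℝ)) ^ (k ^ 2) * ∑' m : ℕ, dk k m ^ 2 / (p : ℝ) ^ m)

/-- The centred normal law of variance `1/2`. -/
noncomputable def ga : Measure ℝ := ProbabilityTheory.gaussianReal 0 (1 / 2)

/-- The law of a sequence of independent standard complex Gaussian variables, as pairs of real and imaginary parts. -/
noncomputable def noise : Measure (ℕ → ℝ × ℝ) := Measure.infinitePi fun _ => ga.prod ga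

/-- The limit field `f(z) = (1 + z/2)^(-k) exp(∑_{n ≥ 1} ξ_n w^n / √n)`, `w = z/(z+2)`, `ξ_{n+1} = ω_n`. -/
noncomputable def field (k : ℝ) (ω : ℕ → ℝ × ℝ) (z : ℂ) : ℂ :=
  (1 + z / 2) ^ (-(k : ℂ)) *
    Complex.exp (∑' n : ℕ, (((ω n).1 : ℂ) + (ω n).2 * Complex.I) * ((z / (z + 2)) ^ (n + 1) / (Real.sqrt (n + 1) : ℂ)))

/-- The values of zeta at the shifts: `a ↦ ζ(1/2 + δ + i (t + a δ))`. -/
noncomputable def shifts (δ t a : ℝ) : ℂ := riemannZeta (1 / 2 + δ + Complex.I * (t + a * δ))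

/-- The constant `Λ(k, H) = E max_{|a| ≤ H} |f(i a)|^(2k)`. -/
noncomputable def Lam (k H : ℝ) : ℝ := ∫ ω, (⨆ a : Set.Icc (-H) H, ‖field k ω (Complex.I * (a : ℝ))‖) ^ (2 * k) ∂noise

/-- the coefficients -/
lemma dk_lc {k : ℝ} (hk : 0 < k) (m : ℕ) : dk k m = Pool.Agent.H306R2.lc k m := by
  have hG : Real.Gamma k ≠ 0 := (Real.Gamma_pos_of_pos hk).ne'
  unfold dk
  induction m with
  | zero =>
    unfold Pool.Agent.H306R2.lc
    simp [hG]
  | succ m ih =>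
    have h1 : Pool.Agent.H306R2.lc k (m + 1) = Pool.Agent.H306R2.lc k m * ((k + m) / ((m : ℝ) + 1)) := by
      unfold Pool.Agent.H306R2.lc
      rw [Finset.prod_range_succ]
    have hkm : k + (m : ℝ) ≠ 0 := by positivity
    have h2 : Real.Gamma (k + ((m + 1 : ℕ) : ℝ)) = (k + m) * Real.Gamma (k + m) := by
      rw [← Real.Gamma_add_one hkm]
      congr 1
      push_cast
      ring
    have hf : (m.factorial : ℝ) ≠ 0 := by positivity
    rw [h1, ← ih, h2, Nat.factorial_succ]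
    push_cast
    field_simp

/-- the arithmetic factor -/
lemma ak_aF {k : ℝ} (hk : 0 < k) : ak k = Pool.Agent.H306R2.aF k := by
  unfold ak Pool.Agent.H306R2.aF
  refine tprod_congr fun p => ?_
  simp_rw [dk_lc hk, one_div, inv_pow, div_eq_mul_inv]

/-- the field -/
lemma field_fi (k : ℝ) (ω : ℕ → ℝ × ℝ) : field k ω = Pool.Agent.X111.FL.fi k ω := by
  funext z
  unfold field Pool.Agent.X111.FL.fi Pool.Agent.X111.FL.gf Pool.Agent.X111.JD.nn
  rfl

/-- the shifts -/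
lemma shifts_jf (δ t a : ℝ) : shifts δ t a = Pool.Agent.X111.FL.jf δ t (Complex.I * a) := by
  unfold shifts Pool.Agent.X111.FL.jf
  congr 1
  ring

/-- the constants -/
lemma Lam_LM {k H : ℝ} (hH : 0 ≤ H) : Lam k H = Pool.Agent.X111.FZ.LM k H := by
  have hne : Nonempty (Set.Icc (-H) H) := ⟨⟨0, by constructor <;> linarith⟩⟩
  unfold Lam Pool.Agent.X111.FZ.LM
  refine Eq.symm (integral_congr_ae ?_)
  filter_upwards [Pool.Agent.X111.FL.Gd_ae] with ω hω
  rw [ContinuousMap.norm_eq_iSup_norm]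
  simp_rw [Pool.Agent.X111.FL.pth_fi k hω, field_fi]

theorem result :
    (∀ k : ℝ, 0 < k → k ≤ 2 → 0 < ak k ∧
      ∀ δ : ℝ → ℝ, Tendsto δ atTop (𝓝 0) → Tendsto (fun T : ℝ => δ T * Real.log T) atTop atTop → ∀ H : ℝ, 0 ≤ H →
      Tendsto (fun T : ℝ => (2 * δ T) ^ (k ^ 2) * (1 / T) * ∫ t in Set.Icc 0 T,
        (⨆ a : Set.Icc (-H) H, ‖shifts (δ T) t a‖) ^ (2 * k)) atTop (𝓝 (ak k * Lam k H))) ∧
    (∀ k : ℝ, 0 < k → k ≤ 1 →
      (∃ C : ℝ, 0 < C ∧ ∀ H : ℝ, 0 ≤ H → Lam k H ≤ C * (1 + H) ^ (2 * k - k ^ 2)) ∧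
      Tendsto (fun H : ℝ => Real.log (Lam k H) / Real.log H) atTop (𝓝 (2 * k - k ^ 2))) ∧
    (∀ k : ℝ, 0 < k → ∃ c : ℝ, Tendsto (fun H : ℝ => Lam k H / H) atTop (𝓝 c) ∧ (k < 1 → c = 0) ∧ (1 < k → 0 < c)) := by
  have hev : ∀ k : ℝ, ∀ᶠ H : ℝ in atTop, Pool.Agent.X111.FZ.LM k H = Lam k H := by
    intro k
    filter_upwards [eventually_ge_atTop 0] with H hH
    exact (Lam_LM hH).symm
  have hup : ∀ k : ℝ, 0 < k → k ≤ 1 → ∃ C : ℝ, 0 < C ∧ ∀ H : ℝ, 0 ≤ H → Lam k H ≤ C * (1 + H) ^ (2 * k - k ^ 2) := by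
    intro k hk hk1
    obtain ⟨C, hC0, hC⟩ := Pool.Agent.X111.FZ.up_one hk hk1
    exact ⟨C, hC0, fun H hH => by rw [Lam_LM hH]; exact hC H hH⟩
  refine ⟨fun k hk hk2 => ⟨?_, fun δ hδ hδL H hH => ?_⟩, fun k hk hk1 => ⟨hup k hk hk1, ?_⟩, fun k hk => ?_⟩
  · rw [ak_aF hk]
    exact Pool.Agent.H306R2.aF_pos hk
  · rw [ak_aF hk]
    simp_rw [mul_one_div]
    unfold Lam
    simp_rw [shifts_jf, field_fi]
    exact Pool.Agent.X111.FL.maxima hk hk2 hδ hδL hH
  · refine (Pool.Agent.X111.FZ.exp_one hk hk1).congr' ?_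
    filter_upwards [hev k] with H hH
    rw [hH]
  · obtain ⟨c, hc0, hc⟩ := Pool.Agent.X111.FZ.lim_ratio hk
    have hc' : Tendsto (fun H : ℝ => Lam k H / H) atTop (𝓝 c) := by
      refine hc.congr' ?_
      filter_upwards [hev k] with H hH
      rw [hH]
    refine ⟨c, hc', fun hk1 => ?_, fun hk1 => ?_⟩
    · obtain ⟨C, hC0, hC⟩ := hup k hk hk1.le
      have hk2 : 0 < 1 - k := by linarith
      have hz : Tendsto (fun H : ℝ => C * 2 ^ (2 * k - k ^ 2) * H ^ (-(1 - k) ^ 2)) atTop (𝓝 0) := by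
        have h1 := (tendsto_rpow_neg_atTop (show 0 < (1 - k) ^ 2 by positivity)).const_mul (C * (2:ℝ) ^ (2 * k - k ^ 2))
        rw [mul_zero] at h1
        exact h1
      refine le_antisymm (le_of_tendsto_of_tendsto hc' hz ?_) hc0
      filter_upwards [eventually_ge_atTop 1] with H hH
      have hH0 : 0 < H := by linarith
      rw [div_le_iff₀ hH0]
      have he : 0 ≤ 2 * k - k ^ 2 := by nlinarith
      have h2 : (1 + H) ^ (2 * k - k ^ 2) ≤ (2 * H) ^ (2 * k - k ^ 2) := Real.rpow_le_rpow (by linarith) (by linarith) he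
      have h3 : H ^ (-(1 - k) ^ 2) * H = H ^ (2 * k - k ^ 2) := by
        nth_rewrite 2 [← Real.rpow_one H]
        rw [← Real.rpow_add hH0]
        congr 1
        ring
      calc Lam k H ≤ C * (1 + H) ^ (2 * k - k ^ 2) := hC H hH0.le
        _ ≤ C * (2 * H) ^ (2 * k - k ^ 2) := mul_le_mul_of_nonneg_left h2 hC0.le
        _ = C * 2 ^ (2 * k - k ^ 2) * H ^ (-(1 - k) ^ 2) * H := by
          rw [mul_assoc _ (H ^ (-(1 - k) ^ 2)) H, h3, Real.mul_rpow (by norm_num) hH0.le]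
          ring
    · obtain ⟨c', hc0', hc2⟩ := Pool.Agent.X111.FZ.lim_pos hk1
      have := tendsto_nhds_unique hc hc2
      rw [this]
      exact hc0'

end Pool.Agent.Results.MP_fa2474_nt.FreezingOfMaxima
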