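import Pool.Agent.X111.FL.Max

set_option autoImplicit false

/-!
MP_fa2474_nt. The whole family of shifts at the scale of the distance to the line. Let `δ(T) → 0`, `δ(T) log T → ∞`, let
`0 < k ≤ 2` be real and `H ≥ 0`. For every continuous functional `Φ` on `C([-H, H], ℂ)` with `Φ(c u) = |c|^(2k) Φ(u)`,
`(2δ)^(k²) (1/T) ∫_0^T Φ(a ↦ ζ(1/2 + δ + i (t + a δ))) dt` converges to `a(k) E Φ(a ↦ f(i a))`, where `f` is the random function
`f(z) = (1 + z/2)^(-k) exp(∑_{n ≥ 1} ξ_n w^n / √n)`, `w = z/(z+2)`, with independent standard complex Gaussian `ξ_n`. This holds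
in particular for the maximum over the shifts, `(max_{|a| ≤ H} |ζ(1/2 + δ + i (t + a δ))|)^(2k)`, and for
`(∫_{-H}^H |ζ(1/2 + δ + i (t + a δ))|^b da)^m`, `b m = 2k`.
-/

open Filter Topology MeasureTheory

namespace Pool.Agent.Results.MP_fa2474_nt.PathFunctionals

/-- The generalised divisor function at a prime power: `d_k(p^m) = Γ(k + m) / (Γ(k) m!)`. -/
noncomputable def dk (k : ℝ) (m : ℕ) : ℝ := Real.Gamma (k + m) / (Real.Gamma k * (m.factorial : ℝ))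

/-- The arithmetic factor `a(k) = ∏_p (1 - 1/p)^(k²) ∑_m d_k(p^m)² p^(-m)`. -/
noncomputable def ak (k : ℝ) : ℝ :=
  ∏' p : Nat.Primes, ((1 - 1 / (p : ℝ)) ^ (k ^ 2) * ∑' m : ℕ, dk k m ^ 2 / (p : ℝ) ^ m)

/-- The centred normal law of variance `1/2`. -/
noncomputable def ga : Measure ℝ := ProbabilityTheory.gaussianReal 0 (1 / 2)

/-- The law of a sequence of independent standard complex Gaussian variables, as pairs of real and imaginary parts. -/
noncomputable def noise : Measure (ℕ → ℝ × ℝ) := Measure.infinitePi fun _ => ga.prod ga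

/-- The limit field `f(z) = (1 + z/2)^(-k) exp(∑_{n ≥ 1} ξ_n w^n / √n)`, `w = z/(z+2)`, `ξ_{n+1} = ω_n`. -/
noncomputable def field (k : ℝ) (ω : ℕ → ℝ × ℝ) (z : ℂ) : ℂ :=
  (1 + z / 2) ^ (-(k : ℂ)) *
    Complex.exp (∑' n : ℕ, (((ω n).1 : ℂ) + (ω n).2 * Complex.I) * ((z / (z + 2)) ^ (n + 1) / (Real.sqrt (n + 1) : ℂ)))

/-- The path `a ↦ g a` on `[-H, H]`, as a continuous function (`0`, if it is not continuous). -/
noncomputable def path (H : ℝ) (g : ℝ → ℂ) : C(Set.Icc (-H) H, ℂ) := ContinuousMap.mkD (fun a : Set.Icc (-H) H => g a) 0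

/-- The values of zeta at the shifts: `a ↦ ζ(1/2 + δ + i (t + a δ))`. -/
noncomputable def shifts (δ t a : ℝ) : ℂ := riemannZeta (1 / 2 + δ + Complex.I * (t + a * δ))

/-- the coefficients -/
lemma dk_lc {k : ℝ} (hk : 0 < k) (m : ℕ) : dk k m = Pool.Agent.H306R2.lc k m := by
  have hG : Real.Gamma k ≠ 0 := (Real.Gamma_pos_of_pos hk).ne'
  unfold dk
  induction m with
  | zero =>
    unfold Pool.Agent.H306R2.lc
    simp [hG]
  | succ m ih =>
    have h1 : Pool.Agent.H306R2.lc k (m + 1) = Pool.Agent.H306R2.lc k m * ((k + m) / ((m : ℝ) + 1)) := by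
      unfold Pool.Agent.H306R2.lc
      rw [Finset.prod_range_succ]
    have hkm : k + (m : ℝ) ≠ 0 := by positivity
    have h2 : Real.Gamma (k + ((m + 1 : ℕ) : ℝ)) = (k + m) * Real.Gamma (k + m) := by
      rw [← Real.Gamma_add_one hkm]
      congr 1
      push_cast
      ring
    have hf : (m.factorial : ℝ) ≠ 0 := by positivity
    rw [h1, ← ih, h2, Nat.factorial_succ]
    push_cast
    field_simp

/-- the arithmetic factor -/
lemma ak_aF {k : ℝ} (hk : 0 < k) : ak k = Pool.Agent.H306R2.aF k := by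
  unfold ak Pool.Agent.H306R2.aF
  refine tprod_congr fun p => ?_
  simp_rw [dk_lc hk, one_div, inv_pow, div_eq_mul_inv]

/-- the field -/
lemma field_fi (k : ℝ) (ω : ℕ → ℝ × ℝ) : field k ω = Pool.Agent.X111.FL.fi k ω := by
  funext z
  unfold field Pool.Agent.X111.FL.fi Pool.Agent.X111.FL.gf Pool.Agent.X111.JD.nn
  rfl

/-- the shifts -/
lemma shifts_jf (δ t a : ℝ) : shifts δ t a = Pool.Agent.X111.FL.jf δ t (Complex.I * a) := by
  unfold shifts Pool.Agent.X111.FL.jf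
  congr 1
  ring

theorem result : ∀ δ : ℝ → ℝ, Tendsto δ atTop (𝓝 0) → Tendsto (fun T : ℝ => δ T * Real.log T) atTop atTop →
    ∀ k : ℝ, 0 < k → k ≤ 2 → ∀ H : ℝ, 0 ≤ H →
    (∀ Φ : C(Set.Icc (-H) H, ℂ) → ℝ, Continuous Φ → (∀ (c : ℂ) (u : C(Set.Icc (-H) H, ℂ)), Φ (c • u) = ‖c‖ ^ (2 * k) * Φ u) →
      Tendsto (fun T : ℝ => (2 * δ T) ^ (k ^ 2) * (1 / T) * ∫ t in Set.Icc 0 T, Φ (path H (shifts (δ T) t))) atTop
        (𝓝 (ak k * ∫ ω, Φ (path H fun a => field k ω (Complex.I * a)) ∂noise))) ∧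
    Tendsto (fun T : ℝ => (2 * δ T) ^ (k ^ 2) * (1 / T) * ∫ t in Set.Icc 0 T,
      (⨆ a : Set.Icc (-H) H, ‖shifts (δ T) t a‖) ^ (2 * k)) atTop
      (𝓝 (ak k * ∫ ω, (⨆ a : Set.Icc (-H) H, ‖field k ω (Complex.I * (a : ℝ))‖) ^ (2 * k) ∂noise)) ∧
    (∀ b m : ℝ, 0 < b → 0 < m → b * m = 2 * k →
      Tendsto (fun T : ℝ => (2 * δ T) ^ (k ^ 2) * (1 / T) * ∫ t in Set.Icc 0 T,
        (∫ a in Set.Icc (-H) H, ‖shifts (δ T) t a‖ ^ b) ^ m) atTop
        (𝓝 (ak k * ∫ ω, (∫ a in Set.Icc (-H) H, ‖field k ω (Complex.I * a)‖ ^ b) ^ m ∂noise))) := by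
  intro δ hδ hδL k hk hk2 H hH
  rw [ak_aF hk]
  simp_rw [field_fi, mul_one_div]
  refine ⟨fun Φ hΦ hom => ?_, ?_, fun b m hb hm hbm => ?_⟩
  · have h1 := Pool.Agent.X111.FL.paths hk hk2 hδ hδL hH hΦ hom
    have e1 : ∀ T t, path H (shifts (δ T) t) = Pool.Agent.X111.FL.pth H (Pool.Agent.X111.FL.jf (δ T) t) := by
      intro T t
      unfold path Pool.Agent.X111.FL.pth
      simp_rw [shifts_jf]
    simp_rw [e1]
    exact h1
  · have h1 := Pool.Agent.X111.FL.maxima hk hk2 hδ hδL hH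
    simp_rw [shifts_jf]
    exact h1
  · have h1 := Pool.Agent.X111.FL.locmom hk hk2 hδ hδL hH hb hm hbm
    simp_rw [shifts_jf]
    exact h1

end Pool.Agent.Results.MP_fa2474_nt.PathFunctionals
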