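import Pool.Agent.X110.RR5

/-!
# Joint moments of all real orders, and ratios, with complex shifts near the critical line

For complex shifts `w = (w_1, …, w_m)`, real exponents `β_j` and integers `r_j` (of any sign) let

`Z(t) = ∏_j ζ(1/2 + δ + it + w_j)^(r_j) |ζ(1/2 + δ + it + w_j)|^(2 β_j)`.

With `β_j = q_j` and `r_j = p_j - q_j` this is `∏ ζ^(p_j) (conj ζ)^(q_j)`, so the family contains all the
products of shifted values of `ζ` and of its conjugate, all their ratios, and all products of real powers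
of `|ζ|` (positive and negative).

Unconditionally, for all `m, K` and every `B`, uniformly in `C loglog T / log T ≤ δ ≤ 1/16`, in all shifts
with `0 ≤ Re w_j ≤ 1/16 - δ` and `|Im w_j| ≤ T`, in all `|β_j| ≤ K` and `|r_j| ≤ K`, and in the window
`(log T)^A ≤ V ≤ T^(cδ)`, the mean value of `Z(t)` over the `t` in `(0, T]` at which all the `m` values of
`|ζ|` lie between `1/V` and `V` is

`∑_n (d_(β_1+r_1)^(w_1) * ⋯ * d_(β_m+r_m)^(w_m))(n) conj (d_(β_1)^(w_1) * ⋯ * d_(β_m)^(w_m))(n) n^(-1-2δ)`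

up to `O((log T)^(-B))`, where `d_α^(w)(n) = d_α(n) n^(-w)` are the coefficients of `ζ(s + w)^α`; the omitted
`t` have measure at most `T (log T)^(-B)`.
-/

set_option autoImplicit false

namespace Pool.Agent.Results.MP_fa2474_nt.TruncatedRatios

open MeasureTheory Finset

noncomputable section

/-- The point `1/2 + δ + it + w`. -/
def pt (δ t : ℝ) (w : ℂ) : ℂ := ((1 / 2 + δ : ℝ) : ℂ) + (t : ℂ) * Complex.I + w

/-- The coefficient `d_α(n)` of `n^(-s)` in `ζ(s)^α`: multiplicative, with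
`d_α(p^e) = α (α + 1) ⋯ (α + e - 1) / e!`. -/
def dk (α : ℝ) (n : ℕ) : ℝ :=
  if n = 0 then 0 else n.factorization.prod fun _ e => ∏ i ∈ range e, (α + i) / ((i : ℝ) + 1)

/-- The function `n ↦ d_α(n) n^(-w)`, the coefficients of `ζ(s + w)^α`. -/
def tw (α : ℝ) (w : ℂ) : ArithmeticFunction ℂ :=
  ⟨fun n => (dk α n : ℂ) * (n : ℂ) ^ (-w), by simp [dk]⟩

/-- The Dirichlet convolution of the `d_(α_j)(n) n^(-w_j)`, the coefficients of `∏_j ζ(s + w_j)^(α_j)`. -/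
def conv {m : ℕ} (α : Fin m → ℝ) (w : Fin m → ℂ) : ArithmeticFunction ℂ := ∏ j, tw (α j) (w j)

/-- The Dirichlet series `∑_n conv(β + r, w)(n) conj(conv(β, w)(n)) n^(-1-2δ)`. -/
def diag (δ : ℝ) {m : ℕ} (w : Fin m → ℂ) (β : Fin m → ℝ) (r : Fin m → ℤ) : ℂ :=
  ∑' n : ℕ, conv (fun j => β j + r j) w n * (starRingEnd ℂ) (conv β w n) * (((n : ℝ) ^ (-1 - 2 * δ) : ℝ) : ℂ)

/-- The `t` in `(0, T]` at which all the values of `|ζ|` lie between `1/V` and `V`. -/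
def good (δ V T : ℝ) {m : ℕ} (w : Fin m → ℂ) : Set ℝ :=
  {t | t ∈ Set.Ioc 0 T ∧ ∀ j, V⁻¹ < ‖riemannZeta (pt δ t (w j))‖ ∧ ‖riemannZeta (pt δ t (w j))‖ < V}

/-- Truncated joint moments of all real orders, and ratios, with complex shifts. -/
theorem result : ∀ m K : ℕ, ∃ c : ℝ, 0 < c ∧ ∀ B : ℝ, ∃ A C T₀ : ℝ, 0 < C ∧ ∀ T : ℝ, T₀ ≤ T →
    ∀ δ : ℝ, C * Real.log (Real.log T) / Real.log T ≤ δ → δ ≤ 1 / 16 →
    ∀ V : ℝ, Real.log T ^ A ≤ V → V ≤ T ^ (c * δ) →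
    ∀ (w : Fin m → ℂ) (β : Fin m → ℝ) (r : Fin m → ℤ),
      (∀ j, 0 ≤ (w j).re ∧ (w j).re ≤ 1 / 16 - δ ∧ |(w j).im| ≤ T) →
      (∀ j, |β j| ≤ K) → (∀ j, |r j| ≤ K) →
    ‖(1 / (T : ℂ)) * (∫ t in good δ V T w, ∏ j, riemannZeta (pt δ t (w j)) ^ (r j) *
        ((‖riemannZeta (pt δ t (w j))‖ ^ (2 * β j) : ℝ) : ℂ)) - diag δ w β r‖ ≤ Real.log T ^ (-B) ∧
    (volume (Set.Ioc 0 T \ good δ V T w)).toReal ≤ T * Real.log T ^ (-B) := by
  intro m K
  obtain ⟨c, hc, h⟩ := Pool.Agent.X110.RR.ratio m K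
  refine ⟨c, hc, fun B => ?_⟩
  obtain ⟨B', hB'⟩ := exists_nat_ge B
  obtain ⟨A, C, T₀, hC, h2⟩ := h B'
  refine ⟨(A : ℝ), C, T₀, hC, fun T hT δ hδ hδ1 V hV1 hV2 w β r hw hβ hr => ?_⟩
  rw [Real.rpow_natCast] at hV1
  obtain ⟨hT4, hL24, hδ0, h2δ, h3⟩ := h2 T hT δ hδ hδ1
  have hTp : 0 < T := by linarith
  have hL0 : 0 < Real.log T := by linarith
  have hL1 : 1 ≤ Real.log T := by linarith
  obtain ⟨g1, g2⟩ := h3 V hV1 hV2 w β r (fun j => ⟨(hw j).1, by linarith [(hw j).2.1], (hw j).2.2⟩) hβ hr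
  have hpow : 1 / Real.log T ^ B' ≤ Real.log T ^ (-B) := by
    rw [Real.rpow_neg hL0.le, one_div]
    refine inv_anti₀ (Real.rpow_pos_of_pos hL0 _) ?_
    rw [← Real.rpow_natCast]
    exact Real.rpow_le_rpow_of_exponent_le hL1 hB'
  have hset : good δ V T w = Set.Ioc 0 T ∩ Pool.Agent.X110.RR.GS δ V w := rfl
  have hdiag : ∑' n : ℕ, Pool.Agent.X110.RR.Ty (fun j => β j + r j) w n *
      (starRingEnd ℂ) (Pool.Agent.X110.RR.Ty β w n) * Pool.Agent.Y746.CS.wt δ n = diag δ w β r := by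
    unfold diag Pool.Agent.Y746.CS.wt
    refine tsum_congr fun n => ?_
    have e : -(2 * (1 / 2 + δ)) = -1 - 2 * δ := by ring
    rw [e]
    rfl
  have hint : ∫ t in good δ V T w, ∏ j, riemannZeta (pt δ t (w j)) ^ (r j) *
        ((‖riemannZeta (pt δ t (w j))‖ ^ (2 * β j) : ℝ) : ℂ) =
      ∫ t in Set.Ioc 0 T ∩ Pool.Agent.X110.RR.GS δ V w, Pool.Agent.X110.RR.Zf δ w β r t := rfl
  rw [hdiag, ← hint] at g1
  have hdiff : Set.Ioc 0 T \ Pool.Agent.X110.RR.GS δ V w = Set.Ioc 0 T \ good δ V T w := by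
    rw [hset]
    ext t
    simp only [Set.mem_sdiff, Set.mem_inter_iff]
    tauto
  rw [hdiff] at g2
  constructor
  · have e8 : (1 / (T : ℂ)) * (∫ t in good δ V T w, ∏ j, riemannZeta (pt δ t (w j)) ^ (r j) *
        ((‖riemannZeta (pt δ t (w j))‖ ^ (2 * β j) : ℝ) : ℂ)) - diag δ w β r =
        (1 / (T : ℂ)) * ((∫ t in good δ V T w, ∏ j, riemannZeta (pt δ t (w j)) ^ (r j) *
        ((‖riemannZeta (pt δ t (w j))‖ ^ (2 * β j) : ℝ) : ℂ)) - (T : ℂ) * diag δ w β r) := by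
      have : (T : ℂ) ≠ 0 := by exact_mod_cast hTp.ne'
      field_simp
    rw [e8, norm_mul, norm_div, norm_one, Complex.norm_real, Real.norm_of_nonneg hTp.le]
    calc 1 / T * _ ≤ 1 / T * (T / Real.log T ^ B') := mul_le_mul_of_nonneg_left g1 (by positivity)
      _ = 1 / Real.log T ^ B' := by field_simp
      _ ≤ _ := hpow
  · calc _ ≤ T / Real.log T ^ B' := g2
      _ = T * (1 / Real.log T ^ B') := by ring
      _ ≤ _ := mul_le_mul_of_nonneg_left hpow hTp.le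

end

end Pool.Agent.Results.MP_fa2474_nt.TruncatedRatios
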